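import Pool.Agent.helper52.IR.Spec

/-! # Project IR (MP_07c750_an), row GEO: transfer of the structure of a stable arc -/

set_option autoImplicit false

open scoped MatrixGroups ContDiff Topology UpperHalfPlane ComplexConjugate
open UpperHalfPlane MeasureTheory Filter Set

namespace Pool.Agent.IR

open Pool.Agent.RS

/-! ## Matrices -/

theorem GEO_l0 (u : ℝ) (k : SL(2, ℝ)) (j : Fin 2) : (lM u * k).1 0 j = k.1 0 j := by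
  rw [Matrix.SpecialLinearGroup.coe_mul, Matrix.mul_apply, Fin.sum_univ_two]
  simp [lM]

theorem GEO_l1 (u : ℝ) (k : SL(2, ℝ)) (j : Fin 2) : (lM u * k).1 1 j = u * k.1 0 j + k.1 1 j := by
  rw [Matrix.SpecialLinearGroup.coe_mul, Matrix.mul_apply, Fin.sum_univ_two]
  simp [lM]

theorem GEO_n0 (x : ℝ) (k : SL(2, ℝ)) (j : Fin 2) : (nM x * k).1 0 j = k.1 0 j + x * k.1 1 j := by
  rw [Matrix.SpecialLinearGroup.coe_mul, Matrix.mul_apply, Fin.sum_univ_two]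
  simp [nM]

theorem GEO_n1 (x : ℝ) (k : SL(2, ℝ)) (j : Fin 2) : (nM x * k).1 1 j = k.1 1 j := by
  rw [Matrix.SpecialLinearGroup.coe_mul, Matrix.mul_apply, Fin.sum_univ_two]
  simp [nM]

theorem GEO_a0 (t : ℝ) (k : SL(2, ℝ)) (j : Fin 2) : (aM t * k).1 0 j = Real.exp (t / 2) * k.1 0 j := by
  rw [Matrix.SpecialLinearGroup.coe_mul, Matrix.mul_apply, Fin.sum_univ_two]
  simp [aM]

theorem GEO_a1 (t : ℝ) (k : SL(2, ℝ)) (j : Fin 2) : (aM t * k).1 1 j = Real.exp (-(t / 2)) * k.1 1 j := by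
  rw [Matrix.SpecialLinearGroup.coe_mul, Matrix.mul_apply, Fin.sum_univ_two]
  simp [aM]

/-- the decomposition -/
theorem GEO_dec (k : SL(2, ℝ)) (h : 0 < k.1 1 1) :
    k = nM (k.1 0 1 / k.1 1 1) * (aM (-2 * Real.log (k.1 1 1)) * lM (k.1 1 0 / k.1 1 1)) := by
  have e1 : Real.exp (-(-2 * Real.log (k.1 1 1) / 2)) = k.1 1 1 := by
    rw [show -(-2 * Real.log (k.1 1 1) / 2) = Real.log (k.1 1 1) by ring, Real.exp_log h]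
  have e2 : Real.exp (-2 * Real.log (k.1 1 1) / 2) = (k.1 1 1)⁻¹ := by
    rw [show -2 * Real.log (k.1 1 1) / 2 = -Real.log (k.1 1 1) by ring, Real.exp_neg, Real.exp_log h]
  have hdet : k.1 0 0 * k.1 1 1 - k.1 0 1 * k.1 1 0 = 1 := by
    rw [← Matrix.det_fin_two]
    exact k.2
  have h0 := h.ne'
  apply Matrix.SpecialLinearGroup.ext
  intro i j
  have f0 : ∀ j, (nM (k.1 0 1 / k.1 1 1) * (aM (-2 * Real.log (k.1 1 1)) * lM (k.1 1 0 / k.1 1 1))).1 0 j =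
      (k.1 1 1)⁻¹ * (lM (k.1 1 0 / k.1 1 1)).1 0 j + k.1 0 1 / k.1 1 1 * (k.1 1 1 * (lM (k.1 1 0 / k.1 1 1)).1 1 j) := by
    intro j
    rw [GEO_n0, GEO_a0, GEO_a1, e1, e2]
  have f1 : ∀ j, (nM (k.1 0 1 / k.1 1 1) * (aM (-2 * Real.log (k.1 1 1)) * lM (k.1 1 0 / k.1 1 1))).1 1 j =
      k.1 1 1 * (lM (k.1 1 0 / k.1 1 1)).1 1 j := by
    intro j
    rw [GEO_n1, GEO_a1, e1]
  fin_cases i <;> fin_cases j
  · show k.1 0 0 = _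
    refine Eq.trans ?_ (f0 0).symm
    show k.1 0 0 = (k.1 1 1)⁻¹ * 1 + k.1 0 1 / k.1 1 1 * (k.1 1 1 * (k.1 1 0 / k.1 1 1))
    field_simp
    linarith
  · show k.1 0 1 = _
    refine Eq.trans ?_ (f0 1).symm
    show k.1 0 1 = (k.1 1 1)⁻¹ * 0 + k.1 0 1 / k.1 1 1 * (k.1 1 1 * 1)
    field_simp
    ring
  · show k.1 1 0 = _
    refine Eq.trans ?_ (f1 0).symm
    show k.1 1 0 = k.1 1 1 * (k.1 1 0 / k.1 1 1)
    field_simp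
  · show k.1 1 1 = _
    refine Eq.trans ?_ (f1 1).symm
    show k.1 1 1 = k.1 1 1 * 1
    ring

/-- the product -/
noncomputable def GEO_Q (w τ1 x1 o0 τ0 z0 δ z τ o : ℝ) : SL(2, ℝ) :=
  lM w * (aM τ1 * (nM x1 * (lM (-o0) * (aM (-τ0) * (nM (-z0) * (lM δ * (nM z * (aM τ * lM o))))))))

theorem GEO_ent (w τ1 x1 o0 τ0 z0 δ z τ o : ℝ) :
    let a0 := Real.exp (τ0 / 2)
    let a1 := Real.exp (τ1 / 2)
    let a := Real.exp (τ / 2)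
    let P := a0⁻¹ * (z - z0 * (1 + δ * z))
    let R := a0 * (1 + δ * z) - o0 * P
    let N := a1 * (P + x1 * R)
    let P1 := a0⁻¹ * (1 - z0 * δ)
    let R1 := a0 * δ - o0 * P1
    let N1 := a1 * (P1 + x1 * R1)
    (GEO_Q w τ1 x1 o0 τ0 z0 δ z τ o).1 0 1 = a⁻¹ * N ∧ (GEO_Q w τ1 x1 o0 τ0 z0 δ z τ o).1 1 1 = a⁻¹ * (a1⁻¹ * R + w * N) ∧
    (GEO_Q w τ1 x1 o0 τ0 z0 δ z τ o).1 1 0 = a * (a1⁻¹ * R1 + w * N1) + o * (a⁻¹ * (a1⁻¹ * R + w * N)) := by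
  intro a0 a1 a P R N P1 R1 N1
  have e0 : Real.exp (-τ0 / 2) = a0⁻¹ := by rw [← Real.exp_neg]; congr 1; ring
  have e0' : Real.exp (-(-τ0 / 2)) = a0 := by congr 1; ring
  have e1 : Real.exp (-(τ1 / 2)) = a1⁻¹ := Real.exp_neg _
  have e2 : Real.exp (-(τ / 2)) = a⁻¹ := Real.exp_neg _
  have l01 : (lM o).1 0 1 = 0 := rfl
  have l11 : (lM o).1 1 1 = 1 := rfl
  have l00 : (lM o).1 0 0 = 1 := rfl
  have l10 : (lM o).1 1 0 = o := rfl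
  unfold GEO_Q
  refine ⟨?_, ?_, ?_⟩
  · simp only [GEO_l0, GEO_l1, GEO_n0, GEO_n1, GEO_a0, GEO_a1, l01, l11, e0, e0', e2]
    simp only [N, R, P, a1]
    ring
  · simp only [GEO_l0, GEO_l1, GEO_n0, GEO_n1, GEO_a0, GEO_a1, l01, l11, e0, e0', e1, e2]
    simp only [N, R, P]
    ring
  · simp only [GEO_l0, GEO_l1, GEO_n0, GEO_n1, GEO_a0, GEO_a1, l00, l10, e0, e0', e1, e2]
    simp only [N, R, P, N1, R1, P1]
    ring

/-! ## Numbers -/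

theorem GEO_am {x y X Y : ℝ} (hx : |x| ≤ X) (hy : |y| ≤ Y) : |x * y| ≤ X * Y := by
  rw [abs_mul]
  exact mul_le_mul hx hy (abs_nonneg _) ((abs_nonneg _).trans hx)

theorem GEO_e3 (t : ℝ) (h : |t| ≤ 3 / 10) : 20 / 27 ≤ Real.exp t ∧ Real.exp t ≤ 27 / 20 := by
  have h0 : Real.exp (3 / 10) ≤ 27 / 20 := by
    have h1 : Real.exp 1 ≤ 2.7182818286 := Real.exp_one_lt_d9.le
    by_contra h
    rw [not_le] at h
    have h2 : Real.exp (3 / 10) ^ 10 = Real.exp 1 ^ 3 := by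
      rw [← Real.exp_nat_mul, ← Real.exp_nat_mul]; norm_num
    have h3 : (27 / 20 : ℝ) ^ 10 < Real.exp (3 / 10) ^ 10 := pow_lt_pow_left₀ h (by norm_num) (by norm_num)
    have h4 : Real.exp 1 ^ 3 ≤ 2.7182818286 ^ 3 := pow_le_pow_left₀ (Real.exp_pos _).le h1 3
    rw [h2] at h3
    norm_num at h3 h4
    linarith
  obtain ⟨h1, h2⟩ := abs_le.1 h
  have h3 : Real.exp t ≤ Real.exp (3 / 10) := Real.exp_le_exp.2 h2
  have h4 : Real.exp (-(3 / 10)) ≤ Real.exp t := Real.exp_le_exp.2 h1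
  refine ⟨?_, h3.trans h0⟩
  refine le_trans ?_ h4
  rw [Real.exp_neg, show (20 / 27 : ℝ) = (27 / 20)⁻¹ by norm_num]
  exact inv_anti₀ (Real.exp_pos _) h0

theorem GEO_e1 (t : ℝ) (h : |t| ≤ 1 / 200) : 199 / 200 ≤ Real.exp t ∧ Real.exp t ≤ 200 / 199 := by
  obtain ⟨h1, h2⟩ := abs_le.1 h
  refine ⟨by linarith [Real.add_one_le_exp t], ?_⟩
  have h3 : 199 / 200 ≤ Real.exp (-t) := by linarith [Real.add_one_le_exp (-t)]
  rw [Real.exp_neg] at h3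
  have h4 := Real.exp_pos t
  rw [show (200 / 199 : ℝ) = (199 / 200)⁻¹ by norm_num]
  exact (le_inv_comm₀ (by norm_num) h4).1 h3

/-- first part: `q = a0⁻² (z/s - z0)`, `s = 1 + δ z` -/
theorem GEO_q (a0 z z0 δ l0 s q : ℝ) (ha : 20 / 27 ≤ a0) (hz : |z| ≤ 17 / 50) (hz0 : |z0| ≤ 17 / 50) (hδ : |δ| ≤ l0)
    (hl : l0 ≤ 1 / 10000) (hs : s = 1 + δ * z) (hq : q = (a0 ^ 2)⁻¹ * (z / s - z0)) :
    9999 / 10000 ≤ s ∧ s ≤ 10001 / 10000 ∧ |q| ≤ 5 / 4 ∧ |q - (a0 ^ 2)⁻¹ * (z - z0)| ≤ l0 / 4 := by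
  have hl0 : 0 ≤ l0 := (abs_nonneg _).trans hδ
  have h1 : |δ * z| ≤ l0 * (17 / 50) := GEO_am hδ hz
  obtain ⟨h2, h3⟩ := abs_le.1 h1
  have hs1 : 9999 / 10000 ≤ s := by rw [hs]; linarith
  have hs2 : s ≤ 10001 / 10000 := by rw [hs]; linarith
  have hs0 : 0 < s := by linarith
  have ha2 : (20 / 27) ^ 2 ≤ a0 ^ 2 := pow_le_pow_left₀ (by norm_num) ha 2
  have ha3 : 0 < a0 ^ 2 := by norm_num at ha2; linarith
  have ha4 : (a0 ^ 2)⁻¹ ≤ 183 / 100 := by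
    rw [inv_le_comm₀ ha3 (by norm_num)]
    norm_num at ha2 ⊢
    linarith
  have ha5 : 0 < (a0 ^ 2)⁻¹ := inv_pos.2 ha3
  have h4 : z / s - z = -(z * (δ * z)) / s := by
    rw [eq_div_iff hs0.ne', sub_mul, div_mul_cancel₀ _ hs0.ne', hs]
    ring
  have h5 : |z / s - z| ≤ l0 * (12 / 100) := by
    rw [h4, abs_div, abs_neg, abs_of_pos hs0, div_le_iff₀ hs0]
    have h6 := GEO_am hz h1
    nlinarith
  have h7 : q - (a0 ^ 2)⁻¹ * (z - z0) = (a0 ^ 2)⁻¹ * (z / s - z) := by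
    rw [hq]
    ring
  have h8 : |q - (a0 ^ 2)⁻¹ * (z - z0)| ≤ l0 / 4 := by
    rw [h7, abs_mul, abs_of_pos ha5]
    nlinarith [abs_nonneg (z / s - z)]
  have h9 : |z - z0| ≤ 34 / 50 := by
    obtain ⟨u1, u2⟩ := abs_le.1 hz
    obtain ⟨u3, u4⟩ := abs_le.1 hz0
    rw [abs_le]
    constructor <;> linarith
  have h10 : |(a0 ^ 2)⁻¹ * (z - z0)| ≤ 183 / 100 * (34 / 50) := by
    rw [abs_mul, abs_of_pos ha5]
    exact mul_le_mul ha4 h9 (abs_nonneg _) (by norm_num)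
  refine ⟨hs1, hs2, ?_, h8⟩
  obtain ⟨u1, u2⟩ := abs_le.1 h8
  obtain ⟨u3, u4⟩ := abs_le.1 h10
  rw [abs_le]
  constructor <;> linarith

/-- second part: `ζ = a1² (q/r + x1)`, `r = 1 - o0 q` -/
theorem GEO_ze (a1 q q0 o0 x1 l0 r ζ : ℝ) (ha : 199 / 200 ≤ a1) (ha' : a1 ≤ 200 / 199) (hq : |q| ≤ 5 / 4) (hq0 : |q - q0| ≤ l0 / 4)
    (ho : |o0| ≤ l0) (hl : l0 ≤ 1 / 10000) (hx : |x1| ≤ 1 / 100) (hr : r = 1 - o0 * q) (hζ : ζ = a1 ^ 2 * (q / r + x1)) :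
    9998 / 10000 ≤ r ∧ r ≤ 10002 / 10000 ∧ |ζ| ≤ 13 / 10 ∧ |ζ - a1 ^ 2 * x1 - a1 ^ 2 * q0| ≤ 3 * l0 := by
  have hl0 : 0 ≤ l0 := (abs_nonneg _).trans ho
  have h1 : |o0 * q| ≤ l0 * (5 / 4) := GEO_am ho hq
  obtain ⟨h2, h3⟩ := abs_le.1 h1
  have hr1 : 9998 / 10000 ≤ r := by rw [hr]; linarith
  have hr2 : r ≤ 10002 / 10000 := by rw [hr]; linarith
  have hr0 : 0 < r := by linarith
  have ha2 : a1 ^ 2 ≤ (200 / 199) ^ 2 := pow_le_pow_left₀ (by linarith) ha' 2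
  have ha3 : 0 < a1 ^ 2 := by positivity
  have h4 : q / r - q = q * (o0 * q) / r := by
    rw [eq_div_iff hr0.ne', sub_mul, div_mul_cancel₀ _ hr0.ne', hr]
    ring
  have h5 : |q / r - q| ≤ l0 * (16 / 10) := by
    rw [h4, abs_div, abs_of_pos hr0, div_le_iff₀ hr0]
    have h6 := GEO_am hq h1
    nlinarith
  have h6 : |q / r - q0| ≤ l0 * 2 := by
    obtain ⟨u1, u2⟩ := abs_le.1 h5
    obtain ⟨u3, u4⟩ := abs_le.1 hq0
    rw [abs_le]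
    constructor <;> linarith
  have h7 : |q / r + x1| ≤ 127 / 100 := by
    obtain ⟨u1, u2⟩ := abs_le.1 h5
    obtain ⟨u3, u4⟩ := abs_le.1 hq
    obtain ⟨u5, u6⟩ := abs_le.1 hx
    rw [abs_le]
    constructor <;> linarith
  norm_num at ha2
  refine ⟨hr1, hr2, ?_, ?_⟩
  · rw [hζ, abs_mul, abs_of_pos ha3]
    nlinarith [abs_nonneg (q / r + x1)]
  · have h8 : ζ - a1 ^ 2 * x1 - a1 ^ 2 * q0 = a1 ^ 2 * (q / r - q0) := by
      rw [hζ]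
      ring
    rw [h8, abs_mul, abs_of_pos ha3]
    nlinarith [abs_nonneg (q / r - q0)]

theorem GEO_box {x y a b c d : ℝ} (ha : 0 ≤ a) (h1 : a ≤ x) (h2 : x ≤ b) (hc : 0 ≤ c) (h3 : c ≤ y) (h4 : y ≤ d) : a * c ≤ x * y ∧ x * y ≤ b * d :=
  ⟨mul_le_mul h1 h3 hc (ha.trans h1), mul_le_mul h2 h4 (hc.trans h3) ((ha.trans h1).trans h2)⟩

theorem GEO_inv {x a b : ℝ} (ha : 0 < a) (h1 : a ≤ x) (h2 : x ≤ b) : b⁻¹ ≤ x⁻¹ ∧ x⁻¹ ≤ a⁻¹ :=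
  ⟨inv_anti₀ (ha.trans_le h1) h2, inv_anti₀ ha h1⟩

theorem GEO_log (D : ℝ) (h1 : 53 / 100 ≤ D) (h2 : D ≤ 19 / 10) : |-2 * Real.log D| ≤ 3 / 2 := by
  have hD : 0 < D := by linarith
  have h3 : (2 : ℝ) ≤ Real.exp (3 / 4) := by
    have := Real.quadratic_le_exp_of_nonneg (show (0 : ℝ) ≤ 3 / 4 by norm_num)
    norm_num at this
    linarith
  have h4 : Real.log D ≤ 3 / 4 := (Real.log_le_iff_le_exp hD).2 (by linarith)
  have h5 : -(3 / 4) ≤ Real.log D := by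
    rw [Real.le_log_iff_exp_le hD, Real.exp_neg]
    have h6 : (Real.exp (3 / 4))⁻¹ ≤ 2⁻¹ := inv_anti₀ (by norm_num) h3
    norm_num at h6
    linarith
  rw [abs_le]
  constructor <;> linarith

/-- the lower left entry -/
theorem GEO_c (a0 a1 a w x1 o0 z0 δ o D : ℝ) (h0 : 20 / 27 ≤ a0) (h0' : a0 ≤ 27 / 20) (h1 : 199 / 200 ≤ a1) (h1' : a1 ≤ 200 / 199)
    (ha : 0 < a) (ha' : a ≤ 27 / 20) (hw : |w| ≤ 1 / 100) (hx : |x1| ≤ 1 / 100) (ho0 : |o0| ≤ 1 / 10000) (hz0 : |z0| ≤ 17 / 50)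
    (hδ : |δ| ≤ 1 / 10000) (ho : |o| ≤ 1 / 10000) (hD : 53 / 100 ≤ D) :
    |(a * (a1⁻¹ * (a0 * δ - o0 * (a0⁻¹ * (1 - z0 * δ))) + w * (a1 * (a0⁻¹ * (1 - z0 * δ) + x1 * (a0 * δ - o0 * (a0⁻¹ * (1 - z0 * δ)))))) + o * D) / D| ≤ 1 / 4 := by
  have hD0 : 0 < D := by linarith
  obtain ⟨i1, i2⟩ := GEO_inv (by norm_num) h0 h0'
  obtain ⟨j1, j2⟩ := GEO_inv (by norm_num) h1 h1'
  have hz : |z0 * δ| ≤ 17 / 50 * (1 / 10000) := GEO_am hz0 hδ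
  have e0 : |1 - z0 * δ| ≤ 10001 / 10000 := by
    obtain ⟨u1, u2⟩ := abs_le.1 hz
    rw [abs_le]
    constructor <;> linarith
  have A0 : |a0| ≤ 27 / 20 := by rw [abs_of_pos (by linarith)]; exact h0'
  have A0i : |a0⁻¹| ≤ 27 / 20 := by
    rw [abs_of_pos (inv_pos.2 (by linarith))]
    norm_num at i2
    linarith
  have A1 : |a1| ≤ 200 / 199 := by rw [abs_of_pos (by linarith)]; exact h1'
  have A1i : |a1⁻¹| ≤ 200 / 199 := by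
    rw [abs_of_pos (inv_pos.2 (by linarith))]
    norm_num at j2
    linarith
  have hP : |a0⁻¹ * (1 - z0 * δ)| ≤ 136 / 100 := (GEO_am A0i e0).trans (by norm_num)
  set P1 := a0⁻¹ * (1 - z0 * δ)
  have hR : |a0 * δ - o0 * P1| ≤ 3 / 10000 := by
    obtain ⟨u1, u2⟩ := abs_le.1 (GEO_am A0 hδ)
    obtain ⟨u3, u4⟩ := abs_le.1 (GEO_am ho0 hP)
    rw [abs_le]
    constructor <;> linarith
  set R1 := a0 * δ - o0 * P1
  have hS : |P1 + x1 * R1| ≤ 1361 / 1000 := by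
    obtain ⟨u1, u2⟩ := abs_le.1 hP
    obtain ⟨u3, u4⟩ := abs_le.1 (GEO_am hx hR)
    rw [abs_le]
    constructor <;> linarith
  have hN : |a1 * (P1 + x1 * R1)| ≤ 137 / 100 := (GEO_am A1 hS).trans (by norm_num)
  have hC : |a1⁻¹ * R1 + w * (a1 * (P1 + x1 * R1))| ≤ 142 / 10000 := by
    obtain ⟨u1, u2⟩ := abs_le.1 (GEO_am A1i hR)
    obtain ⟨u3, u4⟩ := abs_le.1 (GEO_am hw hN)
    rw [abs_le]
    constructor <;> linarith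
  have hA : |a| ≤ 27 / 20 := by rw [abs_of_pos ha]; exact ha'
  have hAC := GEO_am hA hC
  rw [abs_div, abs_of_pos hD0, div_le_iff₀ hD0]
  have hoD : |o * D| ≤ 1 / 10000 * D := by
    rw [abs_mul, abs_of_pos hD0]
    exact mul_le_mul_of_nonneg_right ho hD0.le
  obtain ⟨u1, u2⟩ := abs_le.1 hAC
  obtain ⟨u3, u4⟩ := abs_le.1 hoD
  rw [abs_le]
  constructor <;> linarith

theorem GEO_main (w τ1 x1 o0 τ0 z0 δ z τ o l0 : ℝ) (hw : |w| ≤ 1 / 100) (hτ1 : |τ1| ≤ 1 / 100) (hx1 : |x1| ≤ 1 / 100) (ho0 : |o0| ≤ l0)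
    (hτ0 : |τ0| ≤ 3 / 5) (hz0 : |z0| ≤ 17 / 50) (hδ : |δ| ≤ l0) (hz : |z| ≤ 17 / 50) (hτ : |τ| ≤ 3 / 5) (ho : |o| ≤ l0) (hl : l0 ≤ 1 / 10000) :
    ∃ X t u : ℝ, |X| ≤ 2 ∧ |t| ≤ 3 / 2 ∧ |u| ≤ 1 / 4 ∧ GEO_Q w τ1 x1 o0 τ0 z0 δ z τ o = nM X * (aM t * lM u) ∧
      |X / (1 - w * X) - Real.exp (τ1 / 2) ^ 2 * x1 - Real.exp (τ1 / 2) ^ 2 * ((Real.exp (τ0 / 2) ^ 2)⁻¹ * (z - z0))| ≤ 3 * l0 := by
  obtain ⟨E1, E2, E3⟩ := GEO_ent w τ1 x1 o0 τ0 z0 δ z τ o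
  have b0 := GEO_e3 (τ0 / 2) (by rw [abs_div, abs_two]; linarith)
  have b := GEO_e3 (τ / 2) (by rw [abs_div, abs_two]; linarith)
  have b1 := GEO_e1 (τ1 / 2) (by rw [abs_div, abs_two]; linarith)
  generalize Real.exp (τ0 / 2) = a0 at E1 E2 E3 b0 ⊢
  generalize Real.exp (τ1 / 2) = a1 at E1 E2 E3 b1 ⊢
  generalize Real.exp (τ / 2) = a at E1 E2 E3 b
  have p0 : 0 < a0 := by linarith [b0.1]
  have p1 : 0 < a1 := by linarith [b1.1]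
  have p : 0 < a := by linarith [b.1]
  obtain ⟨s, hs⟩ : ∃ s, s = 1 + δ * z := ⟨_, rfl⟩
  obtain ⟨q, hq⟩ : ∃ q, q = (a0 ^ 2)⁻¹ * (z / s - z0) := ⟨_, rfl⟩
  obtain ⟨s1, s2, q1, q2⟩ := GEO_q a0 z z0 δ l0 s q b0.1 hz hz0 hδ hl hs hq
  obtain ⟨r, hr⟩ : ∃ r, r = 1 - o0 * q := ⟨_, rfl⟩
  obtain ⟨ζ, hζ⟩ : ∃ ζ, ζ = a1 ^ 2 * (q / r + x1) := ⟨_, rfl⟩
  obtain ⟨r1, r2, ζ1, ζ2⟩ := GEO_ze a1 q _ o0 x1 l0 r ζ b1.1 b1.2 q1 q2 ho0 hl hx1 hr hζ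
  have s0 : 0 < s := by linarith
  have r0 : 0 < r := by linarith
  have hv0 : |w * ζ| ≤ 1 / 100 * (13 / 10) := GEO_am hw ζ1
  obtain ⟨v, hv⟩ : ∃ v, v = 1 + w * ζ := ⟨_, rfl⟩
  have v1 : 987 / 1000 ≤ v := by rw [hv]; linarith [(abs_le.1 hv0).1]
  have v2 : v ≤ 1013 / 1000 := by rw [hv]; linarith [(abs_le.1 hv0).2]
  have v0 : 0 < v := by linarith
  -- the entries
  have hP : a0⁻¹ * (z - z0 * (1 + δ * z)) = a0 * s * q := by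
    rw [← hs, hq]
    field_simp
  have hR : a0 * (1 + δ * z) - o0 * (a0⁻¹ * (z - z0 * (1 + δ * z))) = a0 * s * r := by
    rw [hP, ← hs, hr]
    ring
  have hN : a1 * (a0⁻¹ * (z - z0 * (1 + δ * z)) + x1 * (a0 * (1 + δ * z) - o0 * (a0⁻¹ * (z - z0 * (1 + δ * z))))) = a1⁻¹ * a0 * s * r * ζ := by
    rw [hP] at hR ⊢
    rw [hR, hζ]
    field_simp
  obtain ⟨m, hm⟩ : ∃ m, m = a⁻¹ * a0 * a1⁻¹ * s * r := ⟨_, rfl⟩
  have hB : (GEO_Q w τ1 x1 o0 τ0 z0 δ z τ o).1 0 1 = m * ζ := by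
    refine E1.trans ?_
    show a⁻¹ * (a1 * (a0⁻¹ * (z - z0 * (1 + δ * z)) + x1 * (a0 * (1 + δ * z) - o0 * (a0⁻¹ * (z - z0 * (1 + δ * z)))))) = _
    rw [hN, hm]
    ring
  have hD' : a⁻¹ * (a1⁻¹ * (a0 * (1 + δ * z) - o0 * (a0⁻¹ * (z - z0 * (1 + δ * z)))) +
      w * (a1 * (a0⁻¹ * (z - z0 * (1 + δ * z)) + x1 * (a0 * (1 + δ * z) - o0 * (a0⁻¹ * (z - z0 * (1 + δ * z))))))) = m * v := by
    rw [hN, hR, hm, hv]
    ring
  have hD : (GEO_Q w τ1 x1 o0 τ0 z0 δ z τ o).1 1 1 = m * v := E2.trans hD'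
  -- the bounds
  obtain ⟨i1, i2⟩ := GEO_inv (by norm_num) b.1 b.2
  obtain ⟨j1, j2⟩ := GEO_inv (by norm_num) b1.1 b1.2
  obtain ⟨k1, k1'⟩ := GEO_box (by norm_num) i1 i2 (by norm_num) b0.1 b0.2
  obtain ⟨k2, k2'⟩ := GEO_box (by norm_num) k1 k1' (by norm_num) j1 j2
  obtain ⟨k3, k3'⟩ := GEO_box (by norm_num) k2 k2' (by norm_num) s1 s2
  obtain ⟨k4, k4'⟩ := GEO_box (by norm_num) k3 k3' (by norm_num) r1 r2
  obtain ⟨k5, k5'⟩ := GEO_box (by norm_num) k4 k4' (by norm_num) v1 v2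
  rw [← hm] at k4 k4' k5 k5'
  have m0 : 0 < m := by
    norm_num at k4
    linarith
  have D1 : 53 / 100 ≤ m * v := by
    norm_num at k5
    linarith
  have D2 : m * v ≤ 19 / 10 := by
    norm_num at k5'
    linarith
  have hdec := GEO_dec (GEO_Q w τ1 x1 o0 τ0 z0 δ z τ o) (by rw [hD]; linarith)
  have hX : (GEO_Q w τ1 x1 o0 τ0 z0 δ z τ o).1 0 1 / (GEO_Q w τ1 x1 o0 τ0 z0 δ z τ o).1 1 1 = ζ / v := by
    rw [hB, hD, mul_div_mul_left _ _ m0.ne']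
  have hXw : (ζ / v) / (1 - w * (ζ / v)) = ζ := by
    have e1 : 1 - w * (ζ / v) = 1 / v := by
      rw [eq_div_iff v0.ne', sub_mul, mul_assoc, div_mul_cancel₀ _ v0.ne', hv]
      ring
    rw [e1, div_div_div_cancel_right₀ v0.ne', div_one]
  refine ⟨_, _, _, ?_, ?_, ?_, hdec, ?_⟩
  · rw [hX, abs_div, abs_of_pos v0, div_le_iff₀ v0]
    linarith
  · rw [hD]
    exact GEO_log _ D1 D2
  · rw [hD]
    have hC : (GEO_Q w τ1 x1 o0 τ0 z0 δ z τ o).1 1 0 = a * (a1⁻¹ * (a0 * δ - o0 * (a0⁻¹ * (1 - z0 * δ))) + w * (a1 * (a0⁻¹ * (1 - z0 * δ) + x1 * (a0 * δ - o0 * (a0⁻¹ * (1 - z0 * δ)))))) + o * (m * v) := by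
      refine E3.trans ?_
      rw [← hD']
    rw [hC]
    exact GEO_c a0 a1 a w x1 o0 z0 δ o (m * v) b0.1 b0.2 b1.1 b1.2 p b.2 hw hx1 (ho0.trans hl) hz0 (hδ.trans hl) (ho.trans hl) D1
  · rw [hX, hXw]
    exact ζ2

theorem GEO_proof (hGLC : RS.GLC_stmt) : GEO_stmt := by
  intro Γ W εc l l0 w τ1 x1 g y h0 γ J j0 hW hε hε1 hl hl0 hl0ε hw hτ1 hx1 hγ hj0 h00 hJ
  obtain ⟨-, -, -, -, -, -, -, -, -, -, haA, hnA, hlA, -⟩ := hGLC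
  obtain ⟨u0, hu0, x0, τ0, o0, e0, he0, hx0, hτ0, ho0, hh0⟩ := h00
  have hl00 : 0 ≤ l0 := hl.trans hl0
  have hl1 : l0 ≤ 1 / 10000 := by linarith
  have cl : ∀ (x : ℝ) (k : SL(2, ℝ)), lM x * (lM (-x) * k) = k := by
    intro x k
    have h1 := hlA 0 0
    rw [add_zero] at h1
    rw [← mul_assoc, ← hlA, add_neg_cancel, mul_eq_left.1 h1.symm, one_mul]
  have cn : ∀ (x : ℝ) (k : SL(2, ℝ)), nM x * (nM (-x) * k) = k := by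
    intro x k
    have h1 := hnA 0 0
    rw [add_zero] at h1
    rw [← mul_assoc, ← hnA, add_neg_cancel, mul_eq_left.1 h1.symm, one_mul]
  have ca : ∀ (x : ℝ) (k : SL(2, ℝ)), aM x * (aM (-x) * k) = k := by
    intro x k
    have h1 := haA 0 0
    rw [add_zero] at h1
    rw [← mul_assoc, ← haA, add_neg_cancel, mul_eq_left.1 h1.symm, one_mul]
  have hcen : ∀ e : SL(2, ℝ), (e = 1 ∨ e = -1) → (∀ k : SL(2, ℝ), k * e = e * k) ∧ e * e = 1 := by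
    rintro e (rfl | rfl)
    · exact ⟨fun k => by rw [one_mul, mul_one], one_mul 1⟩
    · exact ⟨fun k => by rw [mul_neg, neg_mul, one_mul, mul_one], by rw [neg_mul_neg, one_mul]⟩
  obtain ⟨hc0, hs0⟩ := hcen e0 he0
  have b0 := GEO_e3 (τ0 / 2) (by rw [abs_div, abs_two]; linarith)
  have b1 := GEO_e1 (τ1 / 2) (by rw [abs_div, abs_two]; linarith)
  obtain ⟨a0, ha0⟩ : ∃ a0, a0 = Real.exp (τ0 / 2) := ⟨_, rfl⟩
  obtain ⟨a1, ha1⟩ : ∃ a1, a1 = Real.exp (τ1 / 2) := ⟨_, rfl⟩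
  rw [← ha0] at b0
  rw [← ha1] at b1
  obtain ⟨i1, i2⟩ := GEO_box (by norm_num) b0.1 b0.2 (by norm_num) b0.1 b0.2
  obtain ⟨i3, i4⟩ := GEO_inv (by norm_num) i1 i2
  obtain ⟨j1, j2⟩ := GEO_box (by norm_num) b1.1 b1.2 (by norm_num) b1.1 b1.2
  obtain ⟨k1, k2⟩ := GEO_box (by norm_num) j1 j2 (by norm_num) i3 i4
  have lam1 : 1 / 2 ≤ a1 ^ 2 * (a0 ^ 2)⁻¹ := by
    rw [pow_two, pow_two]
    exact le_trans (by norm_num) k1
  have lam2 : a1 ^ 2 * (a0 ^ 2)⁻¹ ≤ 2 := by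
    rw [pow_two, pow_two]
    exact k2.trans (by norm_num)
  have hzz : ∀ (j : ℤ) (x : ℝ), |(j : ℝ) * εc| ≤ 3 / 10 → |x| ≤ 4 * εc → |(j : ℝ) * εc + x| ≤ 17 / 50 := by
    intro j x h1 h2
    refine (abs_add_le _ _).trans ?_
    linarith
  refine ⟨a1 ^ 2 * x1 - a1 ^ 2 * (a0 ^ 2)⁻¹ * (j0 * εc + x0), a1 ^ 2 * (a0 ^ 2)⁻¹, lam1, lam2, fun j hj => ?_⟩
  obtain ⟨hjε, u, hu, x, τ, o, e, he, hx, hτ, ho, hmem⟩ := hJ j hj
  obtain ⟨hc, hs⟩ := hcen e he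
  have hδ : |l * u - l * u0| ≤ l0 := by
    have h1 : l * u ≤ l := by nlinarith [hu.2]
    have h2 : 0 ≤ l * u := mul_nonneg hl hu.1
    have h3 : l * u0 ≤ l := by nlinarith [hu0.2]
    have h4 : 0 ≤ l * u0 := mul_nonneg hl hu0.1
    rw [abs_le]
    constructor <;> linarith
  obtain ⟨X, t, u', hX, ht, hu', hQ, hest⟩ := GEO_main w τ1 x1 o0 τ0 (j0 * εc + x0) (l * u - l * u0) (j * εc + x) τ o l0
    hw hτ1 hx1 ho0 hτ0 (hzz j0 x0 hj0 hx0) hδ (hzz j x hjε hx) hτ ho hl1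
  rw [← ha0, ← ha1] at hest
  refine ⟨X, hX, ⟨t, u', e * e0, ?_, ht, hu', ?_⟩, ?_⟩
  · rcases he with rfl | rfl <;> rcases he0 with rfl | rfl
    · exact Or.inl (one_mul 1)
    · exact Or.inr (one_mul _)
    · exact Or.inr (mul_one _)
    · refine Or.inl ?_
      rw [neg_mul_neg, one_mul]
  · have hK : h0 * (lM (-o0) * (aM (-τ0) * (nM (-(j0 * εc + x0)) * (lM (l * u - l * u0) * (nM (j * εc + x) * (aM τ * lM o)))))) =
        e0 * (g * (lM (l * u) * (nM (j * εc + x) * (aM τ * lM o)))) := by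
      rw [hh0]
      simp only [mul_assoc]
      rw [cl, ca, cn, ← mul_assoc (lM (l * u0)), ← hlA, add_sub_cancel]
    have key : (γ : SL(2, ℝ)) * (e * g * lM (l * u) * nM (j * εc + x) * aM τ * lM o) = e * e0 * y * nM X * aM t * lM u' := by
      have e1 : e * e0 * y * nM X * aM t * lM u' = e * (e0 * (y * (nM X * (aM t * lM u')))) := by
        simp only [mul_assoc]
      rw [e1, ← hQ]
      unfold GEO_Q
      have e2 : ∀ K : SL(2, ℝ), y * (lM w * (aM τ1 * (nM x1 * K))) = (γ : SL(2, ℝ)) * (h0 * K) := by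
        intro K
        rw [← mul_assoc (γ : SL(2, ℝ)), hγ]
        simp only [mul_assoc]
      have c1 : ∀ k m : SL(2, ℝ), k * (e0 * m) = e0 * (k * m) := fun k m => by rw [← mul_assoc, hc0, mul_assoc]
      have c2 : ∀ k m : SL(2, ℝ), k * (e * m) = e * (k * m) := fun k m => by rw [← mul_assoc, hc, mul_assoc]
      have c3 : ∀ m : SL(2, ℝ), e0 * (e0 * m) = m := fun m => by rw [← mul_assoc, hs0, one_mul]
      rw [e2, hK, c1 (γ : SL(2, ℝ)), c3]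
      simp only [mul_assoc]
      exact c2 _ _
    rw [← key, hW]
    exact hmem
  · have h1 : X / (1 - w * X) - (a1 ^ 2 * x1 - a1 ^ 2 * (a0 ^ 2)⁻¹ * (j0 * εc + x0) + a1 ^ 2 * (a0 ^ 2)⁻¹ * (j * εc)) =
        (X / (1 - w * X) - a1 ^ 2 * x1 - a1 ^ 2 * ((a0 ^ 2)⁻¹ * (j * εc + x - (j0 * εc + x0)))) + a1 ^ 2 * (a0 ^ 2)⁻¹ * x := by
      ring
    rw [h1]
    refine (abs_add_le _ _).trans ?_
    have h2 : |a1 ^ 2 * (a0 ^ 2)⁻¹ * x| ≤ 2 * (4 * εc) := by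
      refine GEO_am ?_ hx
      rw [abs_of_pos (by linarith)]
      exact lam2
    linarith

end Pool.Agent.IR
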